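import Pool.Agent.T9h55.KU.Spec

/-!
# Project MV, piece (PL): the `k`-th prime is at least `k log k / 2`
-/

set_option autoImplicit false

namespace Pool.Agent.T9h95.MV

open Finset Filter Topology
open Pool.Agent.T9h55.RM (P le_P pi_P pi_le)

theorem pl : Pool.Agent.T9h55.KU.S_PL := by
  obtain ⟨N₀, hN₀⟩ := eventually_atTop.1 pi_le
  filter_upwards [eventually_ge_atTop (max N₀ 2)] with k hk
  have hk2 : 2 ≤ k := le_trans (le_max_right _ _) hk
  have hkN : N₀ ≤ k := le_trans (le_max_left _ _) hk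
  have hle := le_P (m := k) (by omega)
  have hkP : k ≤ P k := by omega
  have h1 := hN₀ (P k) (hkN.trans hkP)
  rw [pi_P (by omega)] at h1
  have hkr : (2 : ℝ) ≤ k := by exact_mod_cast hk2
  have hkPr : (k : ℝ) ≤ P k := by exact_mod_cast hkP
  have hl0 : 0 < Real.log (P k) := Real.log_pos (by linarith)
  have hll : Real.log k ≤ Real.log (P k) := Real.log_le_log (by linarith) hkPr
  have h2 : (k : ℝ) * Real.log (P k) ≤ 2 * (P k : ℝ) := by
    rw [← mul_div_assoc, le_div_iff₀ hl0] at h1
    exact h1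
  have h3 : (k : ℝ) * Real.log k ≤ (k : ℝ) * Real.log (P k) :=
    mul_le_mul_of_nonneg_left hll (by linarith)
  linarith

end Pool.Agent.T9h95.MV
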